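import Pool.Agent.Helper3.CK.Stm
import Pool.Graph.R_pool_sql_team_seeded_63374d34.N169.NS.TT

/-!
CK/TT12: property (T) of `E_3(A)`, `A` an algebra generated by at most twelve elements over a finite
field with at least 256 elements.
-/

set_option autoImplicit false

namespace Pool.Agent.Helper11.CK

open Pool.Agent.N44.NS Pool.Agent.N169.NS
open Pool.Agent.Helper278.TB (HP propT_lines)
open Pool.Agent.W661.RC (HasT)

/-- the positions of the lines -/
def qm (m : ℕ) : Fin (3 + m) → Fin 3 := Fin.addCases (fun i => i) (fun _ => 2)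

/-- the coefficients of the lines -/
def am {A : Type} [Ring A] {m : ℕ} (g : Fin m → A) : Fin (3 + m) → A :=
  Fin.addCases (fun _ => 1) g

section lines

variable {K : Type} [Field K] {A : Type} [Ring A] [Algebra K A] {m : ℕ}

/-- the lines -/
def um (g : Fin m → A) (n : Fin (3 + m)) (c : K) : E3 A :=
  eE (qm m n) (qm m n + 1) (q1 _) (c • am g n)

theorem pairsm (g : Fin m → A) (i j : Fin (3 + m)) :
    HP (um g i : K → E3 A) (um g j) ∨ HP (um g j : K → E3 A) (um g i) := by
  rcases cases3 (qm m i) (qm m j) with h | h | h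
  · exact Or.inl (pair_same _ _ h _ _)
  · exact Or.inl (pair_next _ _ h _ _)
  · exact Or.inr (pair_next _ _ h _ _)

theorem eE_congr {i i' j j' : Fin 3} (hi : i = i') (hj : j = j') (h : i ≠ j) (h' : i' ≠ j')
    {a a' : A} (ha : a = a') : eE i j h a = eE i' j' h' a' := by
  subst hi hj ha
  rfl

theorem um_left (g : Fin m → A) (i : Fin 3) (c : K) :
    um g (Fin.castAdd m i) c = eE i (i + 1) (q1 _) (c • (1 : A)) := by
  have h1 : qm m (Fin.castAdd m i) = i := by simp [qm]
  have h2 : am g (Fin.castAdd m i) = 1 := by simp [am]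
  exact eE_congr h1 (by rw [h1]) _ _ (by rw [h2])

theorem um_right (g : Fin m → A) (i : Fin m) (c : K) :
    um g (Fin.natAdd 3 i) c = eE 2 (2 + 1) (q1 _) (c • g i) := by
  have h1 : qm m (Fin.natAdd 3 i) = 2 := by simp [qm]
  have h2 : am g (Fin.natAdd 3 i) = g i := by simp [am]
  exact eE_congr h1 (by rw [h1]) _ _ (by rw [h2])

theorem genm (g : Fin m → A) (hg : Algebra.adjoin K (Set.range g) = ⊤) :
    Subgroup.closure {x | ∃ (n : Fin (3 + m)) (t : K), x = um g n t} = ⊤ := by
  set S : Subgroup (E3 A) := Subgroup.closure {x | ∃ (n : Fin (3 + m)) (t : K), x = um g n t} with hS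
  have hl : ∀ (n : Fin (3 + m)) (t : K), um g n t ∈ S := fun n t => Subgroup.subset_closure ⟨n, t, rfl⟩
  -- scalars
  have hc1 : ∀ (c : K), eE 0 1 (by decide) (c • (1 : A)) ∈ S ∧
      eE 1 2 (by decide) (c • (1 : A)) ∈ S ∧ eE 2 0 (by decide) (c • (1 : A)) ∈ S := by
    intro c
    have h0 := hl (Fin.castAdd m 0) c
    have h1 := hl (Fin.castAdd m 1) c
    have h2 := hl (Fin.castAdd m 2) c
    rw [um_left] at h0 h1 h2
    exact ⟨h0, h1, h2⟩
  have hg1 : ∀ t : Fin m, eE 2 0 (by decide) (g t) ∈ S := by
    intro t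
    have h0 := hl (Fin.natAdd 3 t) 1
    rw [um_right, one_smul] at h0
    exact h0
  -- all positions
  have hc2 : ∀ (c : K) (i j : Fin 3) (h : i ≠ j), eE i j h (c • (1 : A)) ∈ S := by
    intro c
    obtain ⟨a1, a2, a3⟩ := hc1 c
    obtain ⟨b1, b2, b3⟩ := hc1 1
    rw [one_smul] at b1 b2 b3
    have a4 : eE 0 2 (by decide) (c • (1 : A)) ∈ S := by
      have := mem_mul S (i := 0) (j := 1) (k := 2) (by decide) (by decide) (by decide) a1 b2
      rwa [mul_one] at this
    have a5 : eE 1 0 (by decide) (c • (1 : A)) ∈ S := by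
      have := mem_mul S (i := 1) (j := 2) (k := 0) (by decide) (by decide) (by decide) a2 b3
      rwa [mul_one] at this
    have a6 : eE 2 1 (by decide) (c • (1 : A)) ∈ S := by
      have := mem_mul S (i := 2) (j := 0) (k := 1) (by decide) (by decide) (by decide) a3 b1
      rwa [mul_one] at this
    intro i j h
    fin_cases i <;> fin_cases j
    · exact absurd rfl h
    · exact a1
    · exact a4
    · exact a5
    · exact absurd rfl h
    · exact a2
    · exact a3
    · exact a6
    · exact absurd rfl h
  have hone : ∀ (i j : Fin 3) (h : i ≠ j), eE i j h (1 : A) ∈ S := by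
    intro i j h
    have := hc2 1 i j h
    rwa [one_smul] at this
  have hg2 : ∀ (t : Fin m) (i j : Fin 3) (h : i ≠ j), eE i j h (g t) ∈ S := by
    intro t
    have a1 := hg1 t
    have a2 : eE 2 1 (by decide) (g t) ∈ S := by
      have := mem_mul S (i := 2) (j := 0) (k := 1) (by decide) (by decide) (by decide) a1
        (hone 0 1 (by decide))
      rwa [mul_one] at this
    have a3 : eE 1 0 (by decide) (g t) ∈ S := by
      have := mem_mul S (i := 1) (j := 2) (k := 0) (by decide) (by decide) (by decide)
        (hone 1 2 (by decide)) a1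
      rwa [one_mul] at this
    have a4 : eE 0 1 (by decide) (g t) ∈ S := by
      have := mem_mul S (i := 0) (j := 2) (k := 1) (by decide) (by decide) (by decide)
        (hone 0 2 (by decide)) a2
      rwa [one_mul] at this
    have a5 : eE 1 2 (by decide) (g t) ∈ S := by
      have := mem_mul S (i := 1) (j := 0) (k := 2) (by decide) (by decide) (by decide) a3
        (hone 0 2 (by decide))
      rwa [mul_one] at this
    have a6 : eE 0 2 (by decide) (g t) ∈ S := by
      have := mem_mul S (i := 0) (j := 1) (k := 2) (by decide) (by decide) (by decide) a4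
        (hone 1 2 (by decide))
      rwa [mul_one] at this
    intro i j h
    fin_cases i <;> fin_cases j
    · exact absurd rfl h
    · exact a4
    · exact a6
    · exact a3
    · exact absurd rfl h
    · exact a5
    · exact a1
    · exact a2
    · exact absurd rfl h
  have hall : ∀ a : A, ∀ (i j : Fin 3) (h : i ≠ j), eE i j h a ∈ S := by
    intro a
    have ha : a ∈ Algebra.adjoin K (Set.range g) := by
      rw [hg]
      exact Algebra.mem_top
    induction ha using Algebra.adjoin_induction with
    | mem x hx =>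
      obtain ⟨t, rfl⟩ := hx
      exact hg2 t
    | algebraMap r =>
      intro i j h
      have := hc2 r i j h
      rwa [Algebra.smul_def, mul_one] at this
    | add x y _ _ hx hy =>
      intro i j h
      rw [eE_add]
      exact mul_mem (hx i j h) (hy i j h)
    | mul x y _ _ hx hy =>
      intro i j h
      obtain ⟨l, hil, hlj⟩ := third i j
      exact mem_mul S hil hlj h (hx i l hil) (hy l j hlj)
  rw [eq_top_iff]
  rintro ⟨x, hx⟩ -
  refine Subgroup.closure_induction (p := fun x hx => (⟨x, hx⟩ : E3 A) ∈ S) ?_ ?_ ?_ ?_ hx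
  · rintro x ⟨i, j, h, a, rfl⟩
    exact hall a i j h
  · exact one_mem _
  · intro x y hx hy h1 h2
    exact mul_mem h1 h2
  · intro x hx h1
    exact inv_mem h1

end lines

theorem s_tt12 : Pool.Agent.Helper3.CK.S_TT12 := by
  intro K _ _ hK A _ _ m g hm hg
  obtain ⟨S, ε, hε, hT⟩ := propT_lines (Γ := E3 A) hK (n := 3 + m) (by omega) (by omega)
    (um g) (fun n a b => by unfold um; rw [add_smul, eE_add]) (fun i j _ => pairsm g i j) (genm g hg)
  intro H _ _ _ π hπ
  exact hT H π (hπ S ε hε)

end Pool.Agent.Helper11.CK
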